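import Pool.Agent.N436.DF.Stm

set_option autoImplicit false

/-! Deleting a real edge. -/

namespace Pool.Agent.N543.DF.Delr

open Finset
open Pool.Agent.N436.DF

variable {V : Type} [DecidableEq V]

/-- the indicator of the two ordered pairs -/
def ind (x y u v : V) : ℤ := if (u = x ∧ v = y) ∨ (u = y ∧ v = x) then 1 else 0

lemma ind_eq {x y : V} (hxy : x ≠ y) (u v : V) :
    ind x y u v = (if u = x then (if v = y then 1 else 0) else 0) +
      (if u = y then (if v = x then 1 else 0) else 0) := by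
  unfold ind
  by_cases h1 : u = x
  · subst h1
    simp [hxy]
  · by_cases h2 : u = y
    · subst h2
      simp [h1]
    · simp [h1, h2]

lemma sum_one (x y : V) (Y : Finset V) :
    ∑ u ∈ Y, ∑ v ∈ Y, (if u = x then (if v = y then (1:ℤ) else 0) else 0) =
      if x ∈ Y ∧ y ∈ Y then 1 else 0 := by
  have h : ∀ u ∈ Y, ∑ v ∈ Y, (if u = x then (if v = y then (1:ℤ) else 0) else 0) =
      if u = x then (if y ∈ Y then (1:ℤ) else 0) else 0 := by
    intro u _
    by_cases hu : u = x
    · simp only [hu, if_true]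
      rw [Finset.sum_ite_eq']
    · simp [hu]
  rw [sum_congr rfl h, Finset.sum_ite_eq']
  by_cases hx : x ∈ Y <;> by_cases hy : y ∈ Y <;> simp [hx, hy]

lemma sum_ind {x y : V} (hxy : x ≠ y) (Y : Finset V) :
    ∑ u ∈ Y, ∑ v ∈ Y, ind x y u v = if x ∈ Y ∧ y ∈ Y then 2 else 0 := by
  have h : ∑ u ∈ Y, ∑ v ∈ Y, ind x y u v =
      ∑ u ∈ Y, ∑ v ∈ Y, (if u = x then (if v = y then (1:ℤ) else 0) else 0) +
      ∑ u ∈ Y, ∑ v ∈ Y, (if u = y then (if v = x then (1:ℤ) else 0) else 0) := by
    rw [← sum_add_distrib]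
    refine sum_congr rfl fun u _ => ?_
    rw [← sum_add_distrib]
    exact sum_congr rfl fun v _ => ind_eq hxy u v
  rw [h, sum_one, sum_one]
  by_cases hx : x ∈ Y <;> by_cases hy : y ∈ Y <;> simp [hx, hy]

lemma delr_r {P : Par} {H : Hub V} (ok : Ok P H) {x y : V} (h : H.r x y = 1) (u v : V) :
    (delr H x y).r u v = H.r u v - ind x y u v := by
  show (if (u = x ∧ v = y) ∨ (u = y ∧ v = x) then 0 else H.r u v) = _
  unfold ind
  by_cases hc : (u = x ∧ v = y) ∨ (u = y ∧ v = x)
  · rw [if_pos hc, if_pos hc]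
    rcases hc with ⟨rfl, rfl⟩ | ⟨rfl, rfl⟩
    · rw [h, sub_self]
    · rw [ok.rsymm, h, sub_self]
  · rw [if_neg hc, if_neg hc, sub_zero]

theorem delr_ok : S_delr := by
  intro V _ P H x y ok hr
  have hxy : x ≠ y := by
    rintro rfl
    rw [ok.r0] at hr
    exact zero_ne_one hr
  have hE : ∀ S : Finset V, eE (delr H x y) S = eE H S - (if x ∈ S ∧ y ∈ S then 2 else 0) := by
    intro S
    unfold eE
    rw [← sum_ind hxy S, ← sum_sub_distrib]
    refine sum_congr rfl fun u _ => ?_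
    rw [← sum_sub_distrib]
    exact sum_congr rfl fun v _ => delr_r ok hr u v
  refine ⟨?_, ?_, ?_, ?_, ?_⟩
  · refine ⟨ok.c_ge, ok.c1_le, ok.c2_le, ?_, ?_, ?_, ok.m_nn, ok.msymm, ok.m0⟩
    · intro u v
      show (if (u = x ∧ v = y) ∨ (u = y ∧ v = x) then 0 else H.r u v) = 0 ∨
        (if (u = x ∧ v = y) ∨ (u = y ∧ v = x) then 0 else H.r u v) = 1
      split_ifs
      · exact Or.inl rfl
      · exact ok.r01 u v
    · intro u v
      show (if (u = x ∧ v = y) ∨ (u = y ∧ v = x) then 0 else H.r u v) =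
        (if (v = x ∧ u = y) ∨ (v = y ∧ u = x) then 0 else H.r v u)
      have hiff : ((u = x ∧ v = y) ∨ (u = y ∧ v = x)) ↔ ((v = x ∧ u = y) ∨ (v = y ∧ u = x)) := by tauto
      rw [if_congr hiff rfl (ok.rsymm u v)]
    · intro v
      show (if (v = x ∧ v = y) ∨ (v = y ∧ v = x) then 0 else H.r v v) = 0
      split_ifs
      · rfl
      · exact ok.r0 v
  · intro Y
    have hew : ∀ u v, ew P (delr H x y) u v = ew P H u v - P.D * ind x y u v := by
      intro u v
      unfold ew
      rw [delr_r ok hr]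
      show P.D * (H.r u v - ind x y u v) + P.a * H.m u v = _
      ring
    have h1 : ∑ u ∈ Y, ∑ v ∈ Y, ew P (delr H x y) u v =
        ∑ u ∈ Y, ∑ v ∈ Y, ew P H u v - P.D * (if x ∈ Y ∧ y ∈ Y then 2 else 0) := by
      rw [← sum_ind hxy Y, mul_sum, ← sum_sub_distrib]
      refine sum_congr rfl fun u _ => ?_
      rw [mul_sum, ← sum_sub_distrib]
      exact sum_congr rfl fun v _ => hew u v
    unfold rho
    rw [h1]
    have h2 : ∑ v ∈ Y, wt P (delr H x y) v = ∑ v ∈ Y, wt P H v := rfl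
    rw [h2]
    split_ifs <;> ring
  · intro S
    rw [hE]
    split_ifs <;> linarith
  · intro S hx hy
    rw [hE, if_pos ⟨hx, hy⟩]
    linarith
  · intro S f p hy hc
    refine ⟨hc.nn, hc.pay, fun u hu => ?_⟩
    have hload : load (delr H x y) S f p u = load H S f p u := by
      unfold load
      refine sum_congr rfl fun v hv => ?_
      have : (delr H x y).r u v = H.r u v := by
        show (if (u = x ∧ v = y) ∨ (u = y ∧ v = x) then 0 else H.r u v) = _
        rw [if_neg]
        rintro (⟨_, rfl⟩ | ⟨rfl, _⟩)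
        · exact hy hv
        · exact hy hu
      rw [this]
    rw [hload]
    exact hc.cap u hu

end Pool.Agent.N543.DF.Delr
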