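import Pool.Agent.N436.DF.Stm2
import Pool.Agent.N264.DF.Graph

/-!
# Project DF (helper436), second batch, part 10: translation to critical graphs (helper543, after
`Pool.Agent.N264.DF.Graph` by helper264)
-/

set_option autoImplicit false

namespace Pool.Agent.N543.DF.Graph2

open Finset Pool.Agent.N436.DF
open Pool.Agent.N264.DF (hub load_eq load_ge colourable colBy_induce)

/-- the parameters -/
def par2 (d₁ d₂ : ℕ) (h1 : 2 ≤ d₁) (h2 : d₁ + 2 ≤ d₂) : Par where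
  j := d₁
  k := d₂
  a := d₂ + 2
  b := d₁ + 2
  d := d₂ - d₁
  D := (d₁ + 2) * (d₂ + 1)
  hj := by omega
  hb := by omega
  hd := by omega
  hab := by ring
  hD2 := rfl
  hD1 := by ring
  hDa := by nlinarith
  hjk := by omega

lemma par2_rng (d₁ d₂ : ℕ) (h1 : 2 ≤ d₁) (h2 : d₁ + 2 ≤ d₂) (h3 : 2 * d₂ < 3 * d₁ + 2) :
    Rng2 (par2 d₁ d₂ h1 h2) where
  hsoft := by
    change 2 * (((d₂ : ℤ) + 2) + (d₁ + 2)) ≤ ((d₁ : ℤ) + 2) * (d₂ + 1)
    have e1 : (3 : ℤ) ≤ d₁ := by omega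
    have e2 : (5 : ℤ) ≤ d₂ := by omega
    nlinarith
  hdb := by
    change ((d₂ : ℤ) - d₁) ≤ d₁ + 2
    omega
  h2b := by
    change 2 * ((d₁ : ℤ) + 2) ≤ ((d₂ : ℤ) - d₁) * d₂
    have e1 : (d₁ : ℤ) + 2 ≤ d₂ := by exact_mod_cast h2
    have e2 : (0 : ℤ) ≤ d₁ := by positivity
    nlinarith

section

variable {d₁ d₂ : ℕ} {V : Type} (G : SimpleGraph V)

open Classical in
lemma hub_ok2 (h1 : 2 ≤ d₁) (h2 : d₁ + 2 ≤ d₂) :
    Ok (par2 d₁ d₂ h1 h2) (hub d₁ d₂ G) where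
  c_ge i v := by
    change (-1 : ℤ) ≤ if i then (d₁ : ℤ) else d₂
    split_ifs <;> omega
  c1_le v := le_refl (d₁ : ℤ)
  c2_le v := le_refl (d₂ : ℤ)
  r01 u v := by
    change (if G.Adj u v then (1 : ℤ) else 0) = 0 ∨ (if G.Adj u v then (1 : ℤ) else 0) = 1
    split_ifs <;> simp
  rsymm u v := by
    change (if G.Adj u v then (1 : ℤ) else 0) = if G.Adj v u then (1 : ℤ) else 0
    simp only [G.adj_comm u v]
  r0 v := by
    change (if G.Adj v v then (1 : ℤ) else 0) = 0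
    simp
  m_nn u v := le_refl 0
  msymm u v := rfl
  m0 v := rfl

lemma rho_univ2 [Fintype V] [DecidableEq V] (h1 : 2 ≤ d₁) (h2 : d₁ + 2 ≤ d₂) :
    rho (par2 d₁ d₂ h1 h2) (hub d₁ d₂ G) (univ : Finset V) =
      2 * (Fintype.card V : ℤ) * (2 * ((d₁ + 2) * (d₂ + 1)) - (d₂ + 2)) -
        2 * ((d₁ + 2) * (d₂ + 1)) * (G.edgeSet.ncard : ℤ) := by
  classical
  have e1 : ∀ v, wt (par2 d₁ d₂ h1 h2) (hub d₁ d₂ G) v =
      2 * (((d₁ : ℤ) + 2) * (d₂ + 1)) - (d₂ + 2) := by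
    intro v
    change ((d₂ : ℤ) + 2) * ((d₁ : ℤ) + 1) + ((d₁ : ℤ) + 2) * d₂ = _
    ring
  have e2 : ∀ u v, ew (par2 d₁ d₂ h1 h2) (hub d₁ d₂ G) u v =
      (((d₁ : ℤ) + 2) * (d₂ + 1)) * (if G.Adj u v then 1 else 0) := by
    intro u v
    change (((d₁ : ℤ) + 2) * (d₂ + 1)) * (if G.Adj u v then 1 else 0) + ((d₂ : ℤ) + 2) * 0 = _
    ring
  have e3 : ∑ u : V, ∑ v : V, (if G.Adj u v then (1 : ℤ) else 0) = 2 * (G.edgeSet.ncard : ℤ) := by
    have h3 : ∀ u : V, ∑ v : V, (if G.Adj u v then (1 : ℤ) else 0) = G.degree u := by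
      intro u
      rw [← Finset.natCast_card_filter, ← SimpleGraph.card_neighborFinset_eq_degree]
      congr 2
      ext v
      simp
    simp only [h3]
    rw [← Nat.cast_sum, G.sum_degrees_eq_twice_card_edges, ← SimpleGraph.coe_edgeFinset,
      Set.ncard_coe_finset]
    push_cast
    rfl
  rw [rho]
  simp only [e1, e2, ← Finset.mul_sum, e3, Finset.sum_const, card_univ, nsmul_eq_mul]
  ring

end

theorem graph2 (hkc : S_killCol) (hkr : S_killRho) (hg : S_graph) : S_graph2 := by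
  intro hm1 hmain d₁ d₂ h1 h2 V _ G hcrit
  classical
  by_cases h3' : 3 * d₁ + 2 ≤ 2 * d₂
  · exact hg hm1 d₁ d₂ h1 h3' V G hcrit
  have h3 : 2 * d₂ < 3 * d₁ + 2 := by omega
  by_contra hcon
  push Not at hcon
  set P := par2 d₁ d₂ h1 h2 with hP
  have hrng : Rng2 P := par2_rng d₁ d₂ h1 h2 h3
  set H := hub d₁ d₂ G with hH
  have hok : Ok P H := hub_ok2 G h1 h2
  have hb0 : 0 < P.b := by have := P.hb; omega
  have hnotcol : ¬ Col H univ := fun h => hcrit.not_col (colourable G h)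
  -- the potential of the whole graph
  have hrho : -(2 * P.b) < rho P H univ := by
    rw [hP, hH, rho_univ2 G h1 h2]
    change -(2 * ((d₁ : ℤ) + 2)) < _
    have hD : (0 : ℚ) < ((d₁ : ℚ) + 2) * ((d₂ : ℚ) + 1) := by positivity
    have h3a := mul_lt_mul_of_pos_left hcon (mul_pos (by norm_num : (0 : ℚ) < 2) hD)
    have h4 : 2 * (((d₁ : ℚ) + 2) * ((d₂ : ℚ) + 1)) *
        ((2 - ((d₂ : ℚ) + 2) / (((d₁ : ℚ) + 2) * ((d₂ : ℚ) + 1))) * (Fintype.card V : ℚ)
          + 1 / ((d₂ : ℚ) + 1)) = 2 * (Fintype.card V : ℚ) *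
            (2 * (((d₁ : ℚ) + 2) * ((d₂ : ℚ) + 1)) - ((d₂ : ℚ) + 2)) + 2 * ((d₁ : ℚ) + 2) := by
      field_simp
    rw [h4] at h3a
    have h5 : (-(2 * ((d₁ : ℚ) + 2))) < 2 * (Fintype.card V : ℚ) *
        (2 * (((d₁ : ℚ) + 2) * ((d₂ : ℚ) + 1)) - ((d₂ : ℚ) + 2)) -
        2 * (((d₁ : ℚ) + 2) * ((d₂ : ℚ) + 1)) * (G.edgeSet.ncard : ℚ) := by linarith
    exact_mod_cast h5
  -- `V` is nonempty
  have hV : Nonempty V := by
    by_contra hV
    rw [not_nonempty_iff] at hV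
    exact hcrit.not_col ⟨∅, fun v => (hV.false v).elim, fun v => (hV.false v).elim⟩
  obtain ⟨v₀⟩ := hV
  obtain ⟨X, hX, hmin⟩ := Finset.exists_min_image
    ((univ : Finset (Finset V)).filter fun X => X.Nonempty) (rho P H)
    ⟨univ, by simp only [mem_filter, mem_univ, true_and]; exact ⟨v₀, mem_univ _⟩⟩
  rw [mem_filter] at hX
  have hmin' : ∀ Y : Finset V, Y.Nonempty → rho P H X ≤ rho P H Y := fun Y hY =>
    hmin Y (by simp only [mem_filter, mem_univ, true_and]; exact hY)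
  by_cases hXb : -(2 * P.b) < rho P H X
  · exact hnotcol (hmain V P H univ hrng hok fun Y _ hY => hXb.trans_le (hmin' Y hY))
  · push Not at hXb
    have hXu : X ≠ univ := by
      rintro rfl
      exact absurd hrho (not_lt.2 hXb)
    have hXv : ∃ v, v ∉ X := by
      by_contra hall
      push Not at hall
      exact hXu (Finset.eq_univ_iff_forall.2 hall)
    obtain ⟨f, hf⟩ := colBy_induce G hcrit X hXv
    obtain ⟨hk1, hk2, hk3, -⟩ := hkr V P H X f hok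
    have hyp : Hyp P (kill H X f) (univ \ X) := by
      intro Y hY hYn
      have hdis : Disjoint Y X := by
        rw [Finset.disjoint_left]
        intro v hv
        exact (mem_sdiff.1 (hY hv)).2
      rw [hk2 Y hdis]
      have h6 := hmin' (Y ∪ X) (hYn.mono subset_union_left)
      have h7 : 0 ≤ ∑ v ∈ Y, sav P H X f v := Finset.sum_nonneg fun v _ => (hk3 v).2.2.2.2.2
      linarith
    obtain ⟨f', p', hf', -⟩ := hkc V P H univ X f _ hok (subset_univ X) hf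
      (hmain V P _ _ hrng hk1 hyp)
    exact hnotcol ⟨f', p', hf'⟩

end Pool.Agent.N543.DF.Graph2
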